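import Pool.Agent.W410.AK.StepC

/-!
AK-STEP: the step.
-/

set_option autoImplicit false

open Finset

namespace Pool.Agent.W410.AK
open Pool.Agent.W904.AK Pool.Agent.W859.AK

/-- the multipliers of the outer family -/
def QO (T : Finset ℚ) (s z0 z1 : ℚ) : Finset ℚ := T.image (fun τ => s * (1 - th s z0 z1 τ))

/-- the multipliers of the inner families -/
def QI (T : Finset ℚ) (s t z0 z1 : ℚ) : Finset ℚ :=
  T.biUnion (fun τ => T.image (fun σ => t * (1 - th2 s t (th s z0 z1 τ) σ)))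

/-- the multipliers for the modulus `r` -/
def Qr (T : Finset ℚ) (r : ℚ) : Finset ℚ :=
  ({3 / (r + 1), 1 / (1 + r), Z3 r, W4 r} : Finset ℚ) ∪
    ((QO T 1 (r * Z3 r) (Z3 r) ∪ QI T 1 (-1) (r * Z3 r) (Z3 r)) ∪
    (QO T (-1) (r * W4 r) (W4 r) ∪ QI T (-1) 1 (r * W4 r) (W4 r)))

/-- all multipliers -/
def QQ (T : Finset ℚ) : Finset ℚ := insert (-1) (T.biUnion (fun t => Qr T (2 + 1 / t)))

theorem r_bd {t : ℚ} (ht : 1000 < t) : 2 < 2 + 1 / t ∧ 2 + 1 / t < 2001 / 1000 := by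
  have h0 : 0 < t := by linarith
  have h1 : 0 < 1 / t := by positivity
  have h2 : 1 / t < 1 / 1000 := by
    rw [div_lt_div_iff₀ h0 (by norm_num)]
    linarith
  constructor
  · linarith
  · linarith

theorem QO_ne {T : Finset ℚ} (hT : ∀ t ∈ T, 1000 < t) {s z0 z1 : ℚ} (ho : Out s z0 z1) :
    ∀ q ∈ QO T s z0 z1, q ≠ 0 := by
  intro q hq
  unfold QO at hq
  obtain ⟨τ, hτ, rfl⟩ := Finset.mem_image.mp hq
  exact ho.mul τ (hT τ hτ)

theorem QI_ne {T : Finset ℚ} (hT : ∀ t ∈ T, 1000 < t) {s t z0 z1 : ℚ}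
    (hi : ∀ τ ∈ T, Inn s t (th s z0 z1 τ)) :
    ∀ q ∈ QI T s t z0 z1, q ≠ 0 := by
  intro q hq
  unfold QI at hq
  obtain ⟨τ, hτ, hq⟩ := Finset.mem_biUnion.mp hq
  obtain ⟨σ, hσ, rfl⟩ := Finset.mem_image.mp hq
  exact (hi τ hτ).mul σ (hT σ hσ)

theorem QQ_ne {T : Finset ℚ} (hT : ∀ t ∈ T, 1000 < t) : ∀ q ∈ QQ T, q ≠ 0 := by
  intro q hq
  unfold QQ at hq
  rcases Finset.mem_insert.mp hq with rfl | hq
  · norm_num
  obtain ⟨t, ht, hq⟩ := Finset.mem_biUnion.mp hq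
  obtain ⟨r1, r2⟩ := r_bd (hT t ht)
  set r := 2 + 1 / t with hr
  unfold Qr at hq
  rcases Finset.mem_union.mp hq with hq | hq
  · simp only [Finset.mem_insert, Finset.mem_singleton] at hq
    rcases hq with rfl | rfl | rfl | rfl
    · exact div_ne_zero (by norm_num) (by linarith)
    · exact div_ne_zero (by norm_num) (by linarith)
    · exact (Z3_bd r1 r2).1.ne'
    · exact (W4_bd r1 r2).1.ne
  rcases Finset.mem_union.mp hq with hq | hq
  · rcases Finset.mem_union.mp hq with hq | hq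
    · exact QO_ne hT (out1 r1 r2) q hq
    · exact QI_ne hT (fun τ hτ => inn1 ((out1 r1 r2).thp τ (hT τ hτ))) q hq
  · rcases Finset.mem_union.mp hq with hq | hq
    · exact QO_ne hT (out2 r1 r2) q hq
    · exact QI_ne hT (fun τ hτ => inn2 ((out2 r1 r2).thp τ (hT τ hτ))) q hq

/-- heights for the outer family -/
def FO (FK : ℚ → ℚ → ℚ → Finset ℚ) (s z0 z1 : ℚ) : Finset ℚ :=
  FK (z1 / (s - z1)) s (s * z0 / (s - z1))

/-- heights for the inner families -/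
def FI (FK : ℚ → ℚ → ℚ → Finset ℚ) (T : Finset ℚ) (s t z0 z1 : ℚ) : Finset ℚ :=
  T.biUnion (fun τ => FK (s * th s z0 z1 τ / (t - s * th s z0 z1 τ)) t
    (t * s * (1 - th s z0 z1 τ) / (t - s * th s z0 z1 τ)))

/-- heights for the modulus `r` -/
def Fr (FK : ℚ → ℚ → ℚ → Finset ℚ) (FW : ℚ → Finset ℚ) (T : Finset ℚ) (r : ℚ) : Finset ℚ :=
  FW r ∪
    ((FO FK 1 (r * Z3 r) (Z3 r) ∪ FI FK T 1 (-1) (r * Z3 r) (Z3 r)) ∪
    (FO FK (-1) (r * W4 r) (W4 r) ∪ FI FK T (-1) 1 (r * W4 r) (W4 r)))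

/-- all heights -/
def FF (FK : ℚ → ℚ → ℚ → Finset ℚ) (FW : ℚ → Finset ℚ) (T : Finset ℚ) : Finset ℚ :=
  FK 2 (-1 / 2) 0 ∪ T.biUnion (fun t => Fr FK FW T (2 + 1 / t))

theorem exists_weight {T : Finset ℚ} {w : ℚ → ℝ} (hw0 : ∀ t ∈ T, 0 ≤ w t)
    (hw1 : ∑ t ∈ T, w t = 1) {f : ℚ → ℝ} {K : ℝ} (h : K ≤ ∑ t ∈ T, w t * f t) :
    ∃ t ∈ T, K ≤ f t := by
  by_contra hcon
  push Not at hcon
  have h1 : ∑ t ∈ T, w t * (K - f t) = K - ∑ t ∈ T, w t * f t := by
    have : ∑ t ∈ T, w t * K = K := by rw [← Finset.sum_mul, hw1, one_mul]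
    conv_rhs => rw [← this]
    rw [← Finset.sum_sub_distrib]
    exact Finset.sum_congr rfl fun t _ => by ring
  have h2 : ∀ t ∈ T, 0 ≤ w t * (K - f t) := fun t ht =>
    mul_nonneg (hw0 t ht) (by have := hcon t ht; linarith)
  have h3 : ∑ t ∈ T, w t * (K - f t) = 0 := le_antisymm (by linarith) (Finset.sum_nonneg h2)
  have h4 := (Finset.sum_eq_zero_iff_of_nonneg h2).mp h3
  have h5 : ∑ t ∈ T, w t = 0 := by
    refine Finset.sum_eq_zero fun t ht => ?_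
    have h6 := h4 t ht
    have h7 := hcon t ht
    rcases mul_eq_zero.mp h6 with h8 | h8
    · exact h8
    · linarith
  rw [hw1] at h5
  exact one_ne_zero h5

theorem STEP (hKT : S_KT) (hW : S_W) (hAVG : S_AVG) (hSH : S_SHIFT) : S_STEP := by
  intro b T₀ w₀ hO₀ c hg
  obtain ⟨hb1, hb2, hc1, hcb, hneg⟩ := hg
  obtain ⟨T, w, hO, hT⟩ := hSH b T₀ w₀ hO₀ 1000
  have hw0 := hO.1
  have hw1 := hO.2.1
  have hK : ∀ m t0 tp : ℚ, ∃ F : Finset ℚ, m ≠ 0 → t0 ≠ tp →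
      (∀ t ∈ T, t ≠ t0 ∧ t ≠ tp) → KTP b T w m t0 tp F := by
    intro m t0 tp
    by_cases h : m ≠ 0 ∧ t0 ≠ tp ∧ ∀ t ∈ T, t ≠ t0 ∧ t ≠ tp
    · obtain ⟨F, hF⟩ := hKT b T w hO hb1 m t0 tp h.1 h.2.1 h.2.2
      exact ⟨F, fun _ _ _ => hF⟩
    · exact ⟨∅, fun h1 h2 h3 => absurd ⟨h1, h2, h3⟩ h⟩
  choose FK hFK using hK
  have hW' : ∀ r : ℚ, ∃ F : Finset ℚ, 2 < r → r < 2001 / 1000 → WP b T w r F := by
    intro r
    by_cases h : 2 < r ∧ r < 2001 / 1000
    · obtain ⟨F, hF⟩ := hW b T w hO hb1 hT r h.1 h.2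
      exact ⟨F, fun _ _ => hF⟩
    · exact ⟨∅, fun h1 h2 => absurd ⟨h1, h2⟩ h⟩
  choose FW hFW using hW'
  set E := (b - 1) ^ 2 * (10 - (4 * c - 4) - 4 * (((b + 2) * c - 2 - b) / b) - 2 * (6 * c - 7)) +
    2 * ((b - 1) * b * (2 - ((b + 2) * c - 2 - b) / b) + b ^ 2 * (4 - ((b + 2) * c - 2 - b) / b)
      - b * (4 * c - 4) - (b - 1) * (6 * c - 7)) with hE
  have hc0 : 0 < c := by linarith
  obtain ⟨ε, hε, hε2⟩ : ∃ ε : ℝ, 0 < ε ∧ 78 * ε * c < -E := by
    refine ⟨-E / (100 * c), div_pos (by linarith) (by linarith), ?_⟩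
    have : 78 * (-E / (100 * c)) * c = 78 / 100 * (-E) := by
      field_simp
    rw [this]
    linarith
  obtain ⟨G, m, G0, m0, m1, havg⟩ := hAVG (QQ T) {1} ε hε (QQ_ne hT)
  refine ⟨(G ×ˢ FF FK FW T).image (fun x => x.1.2 + x.1.1 * x.2) ∪
    G.image (fun v => v.2 + -v.1), ?_⟩
  intro Ω _ W _ _ p X D hp hd
  by_contra hcon
  push Not at hcon
  obtain ⟨v0, hv0⟩ : G.Nonempty := by
    rw [Finset.nonempty_iff_ne_empty]
    intro h0
    rw [h0, Finset.sum_empty] at m1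
    exact zero_ne_one m1
  have hα : 0 < H p D := by
    have h1 := hcon (v0.2 + -v0.1) (Finset.mem_union_right _
      (Finset.mem_image_of_mem (fun v : ℚ × ℚ => v.2 + -v.1) hv0))
    have h2 := H_nonneg hp (fun x => X x + (v0.2 + -v0.1) • D x)
    have h3 := mul_nonneg hc0.le h2
    linarith
  obtain ⟨h, hh⟩ : ∃ h : ℝ, h = H p D / c := ⟨_, rfl⟩
  have hh0 : 0 < h := by rw [hh]; exact div_pos hα hc0
  have hαh : H p D = c * h := by rw [hh, mul_div_cancel₀ _ hc0.ne']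
  have hlt : ∀ t ∈ (G ×ˢ FF FK FW T).image (fun x => x.1.2 + x.1.1 * x.2) ∪
      G.image (fun v => v.2 + -v.1), H p (pos X D t) ≤ h := by
    intro t ht
    have h1 := hcon t ht
    rw [hh, le_div_iff₀ hc0, mul_comm]
    exact h1.le
  have hR : 0 ≤ 2 * H p D := by linarith
  have ctx : Ctx p X D h (ε * (2 * H p D)) G m (QQ T) (FF FK FW T) := by
    refine ⟨hp, hd, G0, m0, m1, Finset.mem_insert_self _ _, ?_, ?_, ?_⟩
    · intro g hg0 hg1
      obtain ⟨a1, a2⟩ := havg g (2 * H p D) hg0 hg1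
      exact ⟨a1, a2 1 (Finset.mem_singleton_self _)⟩
    · intro v hv t ht
      refine hlt _ (Finset.mem_union_left _ (Finset.mem_image.mpr ⟨(v, t), ?_, rfl⟩))
      exact Finset.mem_product.mpr ⟨hv, ht⟩
    · intro v hv
      exact hlt _ (Finset.mem_union_right _ (Finset.mem_image_of_mem
        (fun v : ℚ × ℚ => v.2 + -v.1) hv))
  set δ := ε * (2 * H p D) with hδ
  have hδ0 : 0 ≤ δ := ctx.δ0
  -- the modulus
  have hK2 : KTP b T w 2 (-1 / 2) 0 (FK 2 (-1 / 2) 0) := by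
    refine hFK 2 (-1 / 2) 0 (by norm_num) (by norm_num) ?_
    intro t ht
    have := hT t ht
    exact ⟨by intro h0; linarith, by intro h0; linarith⟩
  have h0 := ctx.kt hb1 hK2 Finset.subset_union_left
  obtain ⟨t, ht, hrt⟩ := exists_weight (f := fun t => Bp p X D G m (2 * (t - -1 / 2) / (t - 0)))
    hw0 hw1 h0
  obtain ⟨r1, r2⟩ := r_bd (hT t ht)
  have ht0 : t ≠ 0 := by have := hT t ht; intro h0; linarith
  have er : 2 * (t - -1 / 2) / (t - 0) = 2 + 1 / t := by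
    rw [sub_zero]
    field_simp
    ring
  have hsubQ : Qr T (2 + 1 / t) ⊆ QQ T :=
    (Finset.subset_biUnion_of_mem (fun t => Qr T (2 + 1 / t)) ht).trans
      (Finset.subset_insert _ _)
  have hsubF : Fr FK FW T (2 + 1 / t) ⊆ FF FK FW T :=
    (Finset.subset_biUnion_of_mem (fun t => Fr FK FW T (2 + 1 / t)) ht).trans
      Finset.subset_union_right
  simp only [er] at hrt
  generalize 2 + 1 / t = r at r1 r2 er hsubQ hsubF hrt
  have o1 := out1 r1 r2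
  have o2 := out2 r1 r2
  -- outer families
  have k1 := ctx.out (F' := FO FK 1 (r * Z3 r) (Z3 r)) hb1 hw0 hw1 hT o1
    (hFK _ _ _ o1.m0 o1.tt (fun t ht => o1.ts t (hT t ht)))
    (((Finset.subset_union_left.trans Finset.subset_union_left).trans
      Finset.subset_union_right).trans hsubF)
    (fun τ hτ => hsubQ (Finset.mem_union_right _ (Finset.mem_union_left _
      (Finset.mem_union_left _ (Finset.mem_image_of_mem _ hτ)))))
  have k3 := ctx.out (F' := FO FK (-1) (r * W4 r) (W4 r)) hb1 hw0 hw1 hT o2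
    (hFK _ _ _ o2.m0 o2.tt (fun t ht => o2.ts t (hT t ht)))
    (((Finset.subset_union_left.trans Finset.subset_union_right).trans
      Finset.subset_union_right).trans hsubF)
    (fun τ hτ => hsubQ (Finset.mem_union_right _ (Finset.mem_union_right _
      (Finset.mem_union_left _ (Finset.mem_image_of_mem _ hτ)))))
  -- inner families
  have k2 : ∀ τ ∈ T, KK b p X D h G m - 2 * δ ≤ ∑ σ ∈ T, w σ * Pb p X D G m
      (-1 * (1 - th2 1 (-1) (th 1 (r * Z3 r) (Z3 r) τ) σ))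
      (-1 * th2 1 (-1) (th 1 (r * Z3 r) (Z3 r) τ) σ) := by
    intro τ hτ
    have i1 := inn1 (o1.thp τ (hT τ hτ))
    refine ctx.inn hb1 hw0 hw1 hT i1 (hFK _ _ _ i1.m0 i1.tt (fun t ht => i1.ts t (hT t ht))) ?_ ?_
    · refine Finset.Subset.trans ?_ (((Finset.subset_union_right.trans
        Finset.subset_union_left).trans Finset.subset_union_right).trans hsubF)
      exact Finset.subset_biUnion_of_mem (fun τ => FK (1 * th 1 (r * Z3 r) (Z3 r) τ /
        (-1 - 1 * th 1 (r * Z3 r) (Z3 r) τ)) (-1)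
        (-1 * 1 * (1 - th 1 (r * Z3 r) (Z3 r) τ) / (-1 - 1 * th 1 (r * Z3 r) (Z3 r) τ))) hτ
    · intro σ hσ
      refine hsubQ (Finset.mem_union_right _ (Finset.mem_union_left _
        (Finset.mem_union_right _ ?_)))
      exact Finset.mem_biUnion.mpr ⟨τ, hτ, Finset.mem_image_of_mem
        (fun σ => -1 * (1 - th2 1 (-1) (th 1 (r * Z3 r) (Z3 r) τ) σ)) hσ⟩
  have k4 : ∀ τ ∈ T, KK b p X D h G m - 2 * δ ≤ ∑ σ ∈ T, w σ * Pb p X D G m
      (1 * (1 - th2 (-1) 1 (th (-1) (r * W4 r) (W4 r) τ) σ))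
      (1 * th2 (-1) 1 (th (-1) (r * W4 r) (W4 r) τ) σ) := by
    intro τ hτ
    have i1 := inn2 (o2.thp τ (hT τ hτ))
    refine ctx.inn hb1 hw0 hw1 hT i1 (hFK _ _ _ i1.m0 i1.tt (fun t ht => i1.ts t (hT t ht))) ?_ ?_
    · refine Finset.Subset.trans ?_ (((Finset.subset_union_right.trans
        Finset.subset_union_right).trans Finset.subset_union_right).trans hsubF)
      exact Finset.subset_biUnion_of_mem (fun τ => FK (-1 * th (-1) (r * W4 r) (W4 r) τ /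
        (1 - -1 * th (-1) (r * W4 r) (W4 r) τ)) 1
        (1 * -1 * (1 - th (-1) (r * W4 r) (W4 r) τ) / (1 - -1 * th (-1) (r * W4 r) (W4 r) τ))) hτ
    · intro σ hσ
      refine hsubQ (Finset.mem_union_right _ (Finset.mem_union_right _
        (Finset.mem_union_right _ ?_)))
      exact Finset.mem_biUnion.mpr ⟨τ, hτ, Finset.mem_image_of_mem
        (fun σ => 1 * (1 - th2 (-1) 1 (th (-1) (r * W4 r) (W4 r) τ) σ)) hσ⟩
  obtain ⟨z, z', P1, e0, e1, e2, e3⟩ := ctx.fin (k := KK b p X D h G m - 2 * δ) hb1 hw0 hw1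
    (hFW r r1 r2) (Finset.subset_union_left.trans hsubF)
    (hsubQ (Finset.mem_union_left _ (by simp)))
    (hsubQ (Finset.mem_union_left _ (by simp)))
    (hsubQ (Finset.mem_union_left _ (by simp)))
    (hsubQ (Finset.mem_union_left _ (by simp)))
    (by linarith) k1 k2 k3 k4
  rw [hαh] at e1 e2 e3
  have hKK : KK b p X D h G m =
      (3 * (c * h) - 2 * h + (b - 1) * (c * h + PP p X D G m - 2 * h)) / b - h := by
    unfold KK
    rw [hαh]
  have hfin := algebra (P := PP p X D G m) (P1 := P1) (K := KK b p X D h G m)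
    (k := KK b p X D h G m - 2 * δ) hb1 hb2 ctx.P_le hδ0 e0 hKK rfl e1 e2 e3
  rw [← hE] at hfin
  have h9 : 39 * δ = h * (78 * ε * c) := by
    rw [hδ, hαh]
    ring
  rw [h9] at hfin
  have h10 : h * (78 * ε * c) < h * (-E) := mul_lt_mul_of_pos_left hε2 hh0
  linarith

end Pool.Agent.W410.AK
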