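import Pool.Agent.W859.AK.Stm

/-!
AK-STEP, part a: basic facts on `phi`, `pp`, averages.
-/

set_option autoImplicit false
set_option linter.unusedSectionVars false

open Finset

namespace Pool.Agent.W410.AK
open Pool.Agent.W904.AK Pool.Agent.W859.AK

section basic

variable {Ω : Type} [Fintype Ω] {W : Type} [AddCommGroup W] [Module ℚ W] {p : Ω → ℝ}
  {X D : Ω → W}

theorem pair_law (hp : IsLaw p) (X : Ω → W) : IsLaw (pair p X) := glue_law hp hp fun _ => rfl

theorem H_two {α : Type*} (hp : IsLaw p) (X D : Ω → W) {f : Ω × Ω → α}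
    (hf : Det (pair p X) (fun z => (D z.1, D z.2)) f) : H (pair p X) f ≤ 2 * H p D := by
  have hl := pair_law hp X
  have h1 := subadd hl hf (f := fun z : Ω × Ω => D z.1) (g := fun z : Ω × Ω => D z.2)
  have h2 : H (pair p X) (fun z : Ω × Ω => D z.1) = H p D := H_glue_fst hp (fun _ => rfl) D
  have h3 : H (pair p X) (fun z : Ω × Ω => D z.2) = H p D := H_glue_snd hp (fun _ => rfl) D
  linarith

theorem det_pos (hd : Det p D X) (t : ℚ) : Det p D (pos X D t) := by
  intro x y hx hy h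
  unfold pos
  rw [hd x y hx hy h, h]

theorem det_smul (hd : Det p D X) {l : ℚ} (hl : l ≠ 0) (t : ℚ) :
    Det p (fun z => l • D z) (pos X D t) := by
  intro x y hx hy h
  refine det_pos hd t x y hx hy ?_
  simp only at h
  exact smul_right_injective W hl h

theorem phi_nonneg (hp : IsLaw p) (a b : ℚ) : 0 ≤ phi p X D a b := H_nonneg (pair_law hp X) _

theorem pp_nonneg (hp : IsLaw p) (a b : ℚ) : 0 ≤ pp p X D a b := H_nonneg (pair_law hp X) _

theorem phi_le (hp : IsLaw p) (hd : Det p D X) (a b : ℚ) : phi p X D a b ≤ 2 * H p D := by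
  refine H_two hp X D ?_
  intro z z' hz hz' h
  obtain ⟨-, h1, h2⟩ := glue_supp hz
  obtain ⟨-, h1', h2'⟩ := glue_supp hz'
  have e1 : D z.1 = D z'.1 := congrArg Prod.fst h
  have e2 : D z.2 = D z'.2 := congrArg Prod.snd h
  dsimp only
  rw [hd z.1 z'.1 h1 h1' e1, e1, e2]

theorem pp_le (hp : IsLaw p) (hd : Det p D X) (a b : ℚ) : pp p X D a b ≤ 2 * H p D := by
  refine H_two hp X D ?_
  intro z z' hz hz' h
  obtain ⟨-, h1, h2⟩ := glue_supp hz
  obtain ⟨-, h1', h2'⟩ := glue_supp hz'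
  have e1 : D z.1 = D z'.1 := congrArg Prod.fst h
  have e2 : D z.2 = D z'.2 := congrArg Prod.snd h
  unfold pos
  dsimp only
  rw [hd z.1 z'.1 h1 h1' e1, hd z.2 z'.2 h2 h2' e2, e1, e2]

theorem pp_le_pos (hp : IsLaw p) (a : ℚ) : pp p X D a a ≤ 2 * H p (pos X D a) := by
  refine H_two hp X (pos X D a) ?_
  exact Det.refl _ _

theorem im_swap (p : Ω → ℝ) (X : Ω → W) : im (pair p X) Prod.swap = pair p X := by
  funext z
  rw [im_eq_sum, Finset.sum_eq_single z.swap]
  · rw [if_pos (Prod.swap_swap z)]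
    unfold pair glue
    by_cases h : X z.1 = X z.2
    · have h' : X z.swap.1 = X z.swap.2 := h.symm
      rw [if_pos h, if_pos h']
      show p z.2 * p z.1 / im p X (X z.2) = p z.1 * p z.2 / im p X (X z.1)
      rw [h, mul_comm]
    · have h' : ¬ X z.swap.1 = X z.swap.2 := fun h' => h h'.symm
      rw [if_neg h, if_neg h']
  · intro y _ hy
    exact if_neg (fun h => hy (by rw [← h, Prod.swap_swap]))
  · intro h
    exact absurd (Finset.mem_univ _) h

theorem phi_swap (hp : IsLaw p) (a b : ℚ) : phi p X D a b = phi p X D b a := by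
  have h1 := H_map (im_swap p X) (fun z : Ω × Ω => X z.1 + b • D z.1 + a • D z.2)
  unfold phi
  rw [← h1]
  refine H_congr (pair_law hp X) ?_ ?_
  · intro z z' hz hz' h
    obtain ⟨e, -, -⟩ := glue_supp hz
    obtain ⟨e', -, -⟩ := glue_supp hz'
    simp only [Prod.fst_swap, Prod.snd_swap] at h ⊢
    rw [← e, ← e']
    calc X z.1 + b • D z.2 + a • D z.1 = X z.1 + a • D z.1 + b • D z.2 := by abel
      _ = X z'.1 + a • D z'.1 + b • D z'.2 := h
      _ = _ := by abel
  · intro z z' hz hz' h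
    obtain ⟨e, -, -⟩ := glue_supp hz
    obtain ⟨e', -, -⟩ := glue_supp hz'
    simp only [Prod.fst_swap, Prod.snd_swap] at h ⊢
    rw [← e, ← e'] at h
    calc X z.1 + a • D z.1 + b • D z.2 = X z.1 + b • D z.2 + a • D z.1 := by abel
      _ = X z'.1 + b • D z'.2 + a • D z'.1 := h
      _ = _ := by abel

theorem phi_smul (l a b : ℚ) :
    phi p X (fun z => l • D z) a b = phi p X D (l * a) (l * b) := by
  unfold phi
  congr 1
  funext z
  rw [smul_smul, smul_smul, mul_comm a, mul_comm b]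

theorem pp_smul (l a b : ℚ) :
    pp p X (fun z => l • D z) a b = pp p X D (l * a) (l * b) := by
  unfold pp pos
  congr 1
  funext z
  rw [smul_smul, smul_smul, mul_comm a, mul_comm b]

theorem pos_pos (n l t : ℚ) :
    pos (pos X D n) (fun z => l • D z) t = pos X D (n + l * t) := by
  funext z
  unfold pos
  rw [smul_smul, add_smul, mul_comm t, add_assoc]

theorem H_smul {l : ℚ} (hl : l ≠ 0) : H p (fun z => l • D z) = H p D :=
  H_comp_injective p D (smul_right_injective W hl)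

end basic

/-! ### Averages -/

/-- average -/
noncomputable def bar (G : Finset (ℚ × ℚ)) (m : ℚ × ℚ → ℝ) (f : ℚ × ℚ → ℝ) : ℝ :=
  ∑ v ∈ G, m v * f v

section bar

variable {G : Finset (ℚ × ℚ)} {m : ℚ × ℚ → ℝ}

theorem bar_add (f g : ℚ × ℚ → ℝ) : bar G m (fun v => f v + g v) = bar G m f + bar G m g := by
  unfold bar
  rw [← Finset.sum_add_distrib]
  exact Finset.sum_congr rfl fun v _ => by ring

theorem bar_sub (f g : ℚ × ℚ → ℝ) : bar G m (fun v => f v - g v) = bar G m f - bar G m g := by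
  unfold bar
  rw [← Finset.sum_sub_distrib]
  exact Finset.sum_congr rfl fun v _ => by ring

theorem bar_mul (c : ℝ) (f : ℚ × ℚ → ℝ) : bar G m (fun v => c * f v) = c * bar G m f := by
  unfold bar
  rw [Finset.mul_sum]
  exact Finset.sum_congr rfl fun v _ => by ring

theorem bar_div (c : ℝ) (f : ℚ × ℚ → ℝ) : bar G m (fun v => f v / c) = bar G m f / c := by
  unfold bar
  rw [Finset.sum_div]
  exact Finset.sum_congr rfl fun v _ => by ring

theorem bar_const (hm : ∑ v ∈ G, m v = 1) (c : ℝ) : bar G m (fun _ => c) = c := by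
  unfold bar
  rw [← Finset.sum_mul, hm, one_mul]

theorem bar_sum {ι : Type} (s : Finset ι) (f : ι → ℚ × ℚ → ℝ) :
    bar G m (fun v => ∑ i ∈ s, f i v) = ∑ i ∈ s, bar G m (f i) := by
  unfold bar
  rw [Finset.sum_comm]
  exact Finset.sum_congr rfl fun v _ => by rw [Finset.mul_sum]

theorem bar_mono (hm0 : ∀ v ∈ G, 0 ≤ m v) {f g : ℚ × ℚ → ℝ} (h : ∀ v ∈ G, f v ≤ g v) :
    bar G m f ≤ bar G m g :=
  Finset.sum_le_sum fun v hv => mul_le_mul_of_nonneg_left (h v hv) (hm0 v hv)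

/-- the average of the right side of the Z-lemma -/
theorem bar_Zub (hm : ∑ v ∈ G, m v = 1) (b : ℝ) (T : Finset ℚ) (w : ℚ → ℝ)
    (Φ : ℚ × ℚ → ℚ → ℚ → ℝ) (s t z0 z1 : ℚ) (h : ℝ) (HQ HW : ℚ × ℚ → ℝ) :
    bar G m (fun v => Zub b T w (Φ v) s t z0 z1 h (HQ v) (HW v)) =
      Zub b T w (fun x y => bar G m (fun v => Φ v x y)) s t z0 z1 h (bar G m HQ) (bar G m HW) := by
  unfold Zub
  rw [bar_sub, bar_mul, bar_sub, bar_add, bar_const hm, bar_sum, bar_sum]
  congr 3
  · congr 1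
    refine Finset.sum_congr rfl fun τ _ => ?_
    rw [bar_mul, bar_div, bar_sub, bar_mul, bar_sub, bar_const hm, bar_sum]
    congr 5
    refine Finset.sum_congr rfl fun σ _ => ?_
    rw [bar_mul]
  · refine Finset.sum_congr rfl fun τ _ => ?_
    rw [bar_mul]

/-- upper bound for the right side of the Z-lemma -/
theorem Zub_le {b : ℝ} {T : Finset ℚ} {w : ℚ → ℝ} {Φ : ℚ → ℚ → ℝ} {s t z0 z1 : ℚ} {h HQ HW : ℝ}
    (hb : 1 < b) (hw0 : ∀ t ∈ T, 0 ≤ w t) (hw1 : ∑ t ∈ T, w t = 1) {k q₁ w₁ : ℝ}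
    (h1 : k ≤ ∑ τ ∈ T, w τ * Φ (s * (1 - th s z0 z1 τ)) (s * th s z0 z1 τ))
    (h2 : ∀ τ ∈ T, k ≤ ∑ σ ∈ T, w σ *
      Φ (t * (1 - th2 s t (th s z0 z1 τ) σ)) (t * th2 s t (th s z0 z1 τ) σ))
    (hq : q₁ ≤ HQ) (hw : w₁ ≤ HW) :
    Zub b T w Φ s t z0 z1 h HQ HW ≤ b * (2 * h + (b * (4 * h - k) - q₁) / (b - 1) - k) - w₁ := by
  unfold Zub
  have hb0 : 0 < b := by linarith
  have hb1 : 0 < b - 1 := by linarith
  have h3 : ∑ τ ∈ T, w τ * ((b * (4 * h - ∑ σ ∈ T, w σ *
          Φ (t * (1 - th2 s t (th s z0 z1 τ) σ)) (t * th2 s t (th s z0 z1 τ) σ)) - HQ) /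
            (b - 1)) ≤ (b * (4 * h - k) - q₁) / (b - 1) := by
    calc _ ≤ ∑ τ ∈ T, w τ * ((b * (4 * h - k) - q₁) / (b - 1)) := by
          refine Finset.sum_le_sum fun τ hτ => mul_le_mul_of_nonneg_left ?_ (hw0 τ hτ)
          have := h2 τ hτ
          gcongr
      _ = _ := by rw [← Finset.sum_mul, hw1, one_mul]
  gcongr

end bar

end Pool.Agent.W410.AK
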