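import Pool.Agent.W859.AK.Stm

/-!
AK-STEP, part b: the coordinates.
-/

set_option autoImplicit false

open Finset

namespace Pool.Agent.W410.AK
open Pool.Agent.W904.AK Pool.Agent.W859.AK

theorem ratio_out {s z0 z1 τ : ℚ} (hs : s ≠ 0) (hsz : s - z1 ≠ 0) (hd : τ - z0 - z1 ≠ 0)
    (hN : (s - z1) * τ - s * z0 ≠ 0) :
    1 - th s z0 z1 τ = ((s - z1) * τ - s * z0) / (s * (τ - z0 - z1)) ∧
      s * th s z0 z1 τ = s * (1 - th s z0 z1 τ) *
        (z1 / (s - z1) * (τ - s) / (τ - s * z0 / (s - z1))) := by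
  have e1 : 1 - th s z0 z1 τ = ((s - z1) * τ - s * z0) / (s * (τ - z0 - z1)) := by
    unfold th
    field_simp
    ring
  refine ⟨e1, ?_⟩
  have e2 : τ - s * z0 / (s - z1) = ((s - z1) * τ - s * z0) / (s - z1) := by
    field_simp
  rw [e1, e2]
  unfold th
  generalize (s - z1) * τ - s * z0 = N at hN
  field_simp

theorem ratio_in {s t θ σ : ℚ} (ht : t ≠ 0) (h1 : t - s * θ ≠ 0) (h2 : σ - s ≠ 0)
    (hN : (t - s * θ) * σ - t * s * (1 - θ) ≠ 0) :
    1 - th2 s t θ σ = ((t - s * θ) * σ - t * s * (1 - θ)) / (t * (σ - s)) ∧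
      t * th2 s t θ σ = t * (1 - th2 s t θ σ) *
        (s * θ / (t - s * θ) * (σ - t) / (σ - t * s * (1 - θ) / (t - s * θ))) := by
  have e1 : 1 - th2 s t θ σ = ((t - s * θ) * σ - t * s * (1 - θ)) / (t * (σ - s)) := by
    unfold th2
    field_simp
    ring
  refine ⟨e1, ?_⟩
  have e2 : σ - t * s * (1 - θ) / (t - s * θ) =
      ((t - s * θ) * σ - t * s * (1 - θ)) / (t - s * θ) := by
    field_simp
  rw [e1, e2]
  unfold th2
  generalize (t - s * θ) * σ - t * s * (1 - θ) = N at hN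
  field_simp

/-- the conditions for the outer family -/
structure Out (s z0 z1 : ℚ) : Prop where
  m0 : z1 / (s - z1) ≠ 0
  tt : s ≠ s * z0 / (s - z1)
  ts : ∀ τ : ℚ, 1000 < τ → τ ≠ s ∧ τ ≠ s * z0 / (s - z1)
  thp : ∀ τ : ℚ, 1000 < τ → 0 < th s z0 z1 τ
  mul : ∀ τ : ℚ, 1000 < τ → s * (1 - th s z0 z1 τ) ≠ 0
  rat : ∀ τ : ℚ, 1000 < τ → s * th s z0 z1 τ = s * (1 - th s z0 z1 τ) *
        (z1 / (s - z1) * (τ - s) / (τ - s * z0 / (s - z1)))

/-- the conditions for the inner family -/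
structure Inn (s t θ : ℚ) : Prop where
  m0 : s * θ / (t - s * θ) ≠ 0
  tt : t ≠ t * s * (1 - θ) / (t - s * θ)
  ts : ∀ σ : ℚ, 1000 < σ → σ ≠ t ∧ σ ≠ t * s * (1 - θ) / (t - s * θ)
  mul : ∀ σ : ℚ, 1000 < σ → t * (1 - th2 s t θ σ) ≠ 0
  rat : ∀ σ : ℚ, 1000 < σ → t * th2 s t θ σ = t * (1 - th2 s t θ σ) *
        (s * θ / (t - s * θ) * (σ - t) / (σ - t * s * (1 - θ) / (t - s * θ)))

theorem inn1 {θ : ℚ} (h : 0 < θ) : Inn 1 (-1) θ := by
  have h1 : (-1 : ℚ) - 1 * θ ≠ 0 := by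
    intro h0; linarith
  have h1' : (-1 : ℚ) - 1 * θ < 0 := by linarith
  have key : ∀ σ : ℚ, 1000 < σ → ((-1 : ℚ) - 1 * θ) * σ - -1 * 1 * (1 - θ) < 0 := by
    intro σ hσ
    nlinarith
  constructor
  · exact div_ne_zero (by linarith) h1
  · intro h0
    rw [eq_div_iff h1] at h0
    linarith
  · intro σ hσ
    refine ⟨by intro h0; linarith, ?_⟩
    intro h0
    rw [eq_div_iff h1] at h0
    have := key σ hσ
    nlinarith
  · intro σ hσ
    have hσ1 : σ - 1 ≠ 0 := by intro h0; linarith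
    rw [(ratio_in (by norm_num) h1 hσ1 (key σ hσ).ne).1]
    refine mul_ne_zero (by norm_num) (div_ne_zero (key σ hσ).ne ?_)
    exact mul_ne_zero (by norm_num) hσ1
  · intro σ hσ
    have hσ1 : σ - 1 ≠ 0 := by intro h0; linarith
    exact (ratio_in (by norm_num) h1 hσ1 (key σ hσ).ne).2

theorem inn2 {θ : ℚ} (h : 0 < θ) : Inn (-1) 1 θ := by
  have h1 : (1 : ℚ) - (-1) * θ ≠ 0 := by
    intro h0; linarith
  have key : ∀ σ : ℚ, 1000 < σ → 0 < ((1 : ℚ) - (-1) * θ) * σ - 1 * (-1) * (1 - θ) := by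
    intro σ hσ
    nlinarith
  constructor
  · exact div_ne_zero (by intro h0; linarith) h1
  · intro h0
    rw [eq_div_iff h1] at h0
    linarith
  · intro σ hσ
    refine ⟨by intro h0; linarith, ?_⟩
    intro h0
    rw [eq_div_iff h1] at h0
    have := key σ hσ
    nlinarith
  · intro σ hσ
    have hσ1 : σ - (-1) ≠ 0 := by intro h0; linarith
    rw [(ratio_in (by norm_num) h1 hσ1 (key σ hσ).ne').1]
    refine mul_ne_zero (by norm_num) (div_ne_zero (key σ hσ).ne' ?_)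
    exact mul_ne_zero (by norm_num) hσ1
  · intro σ hσ
    have hσ1 : σ - (-1) ≠ 0 := by intro h0; linarith
    exact (ratio_in (by norm_num) h1 hσ1 (key σ hσ).ne').2

theorem Z3_bd {r : ℚ} (h1 : 2 < r) (h2 : r < 2001 / 1000) :
    0 < Z3 r ∧ Z3 r < 1 / 2 ∧ (r + 1) * Z3 r < 1 := by
  have hd : 0 < 2 * (r + 1) * (8 * r - 1) := by nlinarith
  refine ⟨?_, ?_, ?_⟩
  · unfold Z3
    apply div_pos _ hd
    linarith
  · unfold Z3
    rw [div_lt_iff₀ hd]
    nlinarith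
  · have h3 : 0 < 2 * (8 * r - 1) := by linarith
    have e : (r + 1) * Z3 r = 9 * (2 * r - 1) / (2 * (8 * r - 1)) := by
      unfold Z3
      have : r + 1 ≠ 0 := by linarith
      have : 8 * r - 1 ≠ 0 := by linarith
      field_simp
    rw [e, div_lt_one h3]
    linarith

theorem out1 {r : ℚ} (h1 : 2 < r) (h2 : r < 2001 / 1000) : Out 1 (r * Z3 r) (Z3 r) := by
  obtain ⟨a1, a2, a3⟩ := Z3_bd h1 h2
  set z := Z3 r with hz
  have b1 : (1 : ℚ) - z ≠ 0 := by linarith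
  have b1' : (0 : ℚ) < 1 - z := by linarith
  have b2 : r * z < 1 := by nlinarith
  have key : ∀ τ : ℚ, 1000 < τ → 0 < (1 - z) * τ - 1 * (r * z) := by
    intro τ hτ
    nlinarith
  have hd : ∀ τ : ℚ, 1000 < τ → 0 < τ - r * z - z := by
    intro τ hτ
    nlinarith
  constructor
  · exact div_ne_zero a1.ne' b1
  · intro h0
    rw [eq_div_iff b1] at h0
    linarith
  · intro τ hτ
    refine ⟨by intro h0; linarith, ?_⟩
    intro h0
    rw [eq_div_iff b1] at h0
    have := key τ hτ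
    linarith
  · intro τ hτ
    unfold th
    apply div_pos
    · apply mul_pos a1; linarith
    · rw [one_mul]; exact hd τ hτ
  · intro τ hτ
    rw [(ratio_out one_ne_zero b1 (hd τ hτ).ne' (key τ hτ).ne').1]
    refine mul_ne_zero one_ne_zero (div_ne_zero (key τ hτ).ne' ?_)
    rw [one_mul]
    exact (hd τ hτ).ne'
  · intro τ hτ
    exact (ratio_out one_ne_zero b1 (hd τ hτ).ne' (key τ hτ).ne').2

theorem W4_bd {r : ℚ} (h1 : 2 < r) (h2 : r < 2001 / 1000) :
    W4 r < 0 ∧ -1 < W4 r ∧ (r + 1) * W4 r < -1 := by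
  have hr1 : r + 1 ≠ 0 := by intro h; linarith
  have hr4 : 4 * r - 1 ≠ 0 := by intro h; linarith
  have e : W4 r = -((3 * r - 2) * (2 * r - 1) / ((1 + r) * (4 * r - 1))) := by
    unfold W4
    have : 1 + r ≠ 0 := by intro h; linarith
    have e1 : 1 - 2 * r / (4 * r - 1) = (2 * r - 1) / (4 * r - 1) := by
      rw [eq_div_iff hr4, sub_mul, div_mul_cancel₀ _ hr4]
      ring
    rw [e1, div_mul_div_comm, ← neg_div, neg_mul_eq_neg_mul]
    congr 1
    ring
  have hd : 0 < (1 + r) * (4 * r - 1) := by nlinarith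
  refine ⟨?_, ?_, ?_⟩
  · rw [e, neg_lt_zero]
    apply div_pos _ hd
    nlinarith
  · rw [e, neg_lt_neg_iff, div_lt_one hd]
    nlinarith
  · have e2 : (r + 1) * W4 r = -((3 * r - 2) * (2 * r - 1) / (4 * r - 1)) := by
      rw [e]
      have : 1 + r ≠ 0 := by intro h; linarith
      field_simp
      ring
    have h3 : 0 < 4 * r - 1 := by linarith
    rw [e2, neg_lt_neg_iff, lt_div_iff₀ h3]
    nlinarith

theorem out2 {r : ℚ} (h1 : 2 < r) (h2 : r < 2001 / 1000) : Out (-1) (r * W4 r) (W4 r) := by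
  obtain ⟨a1, a2, a3⟩ := W4_bd h1 h2
  set z := W4 r with hz
  have b1 : (-1 : ℚ) - z ≠ 0 := by intro h; linarith
  have b1' : (-1 : ℚ) - z < 0 := by linarith
  have key : ∀ τ : ℚ, 1000 < τ → (-1 - z) * τ - -1 * (r * z) < 0 := by
    intro τ hτ
    have : r * z < 0 := by nlinarith
    nlinarith
  have hd : ∀ τ : ℚ, 1000 < τ → 0 < τ - r * z - z := by
    intro τ hτ
    nlinarith
  constructor
  · exact div_ne_zero a1.ne b1
  · intro h0
    rw [eq_div_iff b1] at h0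
    linarith
  · intro τ hτ
    refine ⟨by intro h0; linarith, ?_⟩
    intro h0
    rw [eq_div_iff b1] at h0
    have := key τ hτ
    linarith
  · intro τ hτ
    unfold th
    apply div_pos_of_neg_of_neg
    · apply mul_neg_of_neg_of_pos a1; linarith
    · have := hd τ hτ
      linarith
  · intro τ hτ
    rw [(ratio_out (by norm_num) b1 (hd τ hτ).ne' (key τ hτ).ne).1]
    refine mul_ne_zero (by norm_num) (div_ne_zero (key τ hτ).ne ?_)
    exact mul_ne_zero (by norm_num) (hd τ hτ).ne'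
  · intro τ hτ
    exact (ratio_out (by norm_num) b1 (hd τ hτ).ne' (key τ hτ).ne).2

end Pool.Agent.W410.AK
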