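import Pool.Agent.W410.AK.StepA
import Pool.Agent.W410.AK.StepB

/-!
AK-STEP, part c: averaging.
-/

set_option autoImplicit false
set_option linter.unusedSectionVars false

open Finset

namespace Pool.Agent.W410.AK
open Pool.Agent.W904.AK Pool.Agent.W859.AK

/-- the conclusion of `S_KT` -/
def KTP (b : ℝ) (T : Finset ℚ) (w : ℚ → ℝ) (m t0 tp : ℚ) (F : Finset ℚ) : Prop :=
  ∀ (Ω : Type) [Fintype Ω] (W : Type) [AddCommGroup W] [Module ℚ W] (p : Ω → ℝ) (X D : Ω → W)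
    (h : ℝ), IsLaw p → Det p D X → (∀ t ∈ F, H p (pos X D t) ≤ h) →
    3 * H p D - 2 * h + (b - 1) * (H p D + pp p (pos X D 1) D (-1) (-1) - 2 * h) ≤
      b * (h + ∑ t ∈ T, w t * phi p X D 1 (m * (t - t0) / (t - tp)))

/-- the conclusion of `S_W` -/
def WP (b : ℝ) (T : Finset ℚ) (w : ℚ → ℝ) (r : ℚ) (F : Finset ℚ) : Prop :=
  ∀ (Ω : Type) [Fintype Ω] (W : Type) [AddCommGroup W] [Module ℚ W] (p : Ω → ℝ) (X D : Ω → W)
    (h : ℝ), IsLaw p → Det p D X → (∀ t ∈ F, H p (pos X D t) ≤ h) →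
    ∃ z z' : ℝ,
      (b - 1) * z ≤ Zub b T w (phi p X D) 1 (-1) (r * Z3 r) (Z3 r) h
        (4 * H p D - 2 * h - pp p X D (-1) (-1))
        (6 * H p D - 3 * h - pp p X D 1 1 - pp p X D (-1) (-1)) ∧
      (b - 1) * z' ≤ Zub b T w (phi p X D) (-1) 1 (r * W4 r) (W4 r) h
        (4 * H p D - 2 * h - pp p X D 1 1)
        (6 * H p D - 3 * h - pp p X D 1 1 - pp p X D (-1) (-1)) ∧
      (4 * H p D - 2 * h - pp p X D 1 1) +
        2 * (6 * H p D - 3 * h - pp p X D 1 1 - pp p X D (-1) (-1)) +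
        phi p X D (3 * r / (r + 1)) (3 / (r + 1)) + phi p X D (1 / (1 + r)) (r / (1 + r)) +
        phi p X D (r * Z3 r) (Z3 r) + phi p X D (W4 r) (r * W4 r) ≤ 10 * h + z + z'

/-- the setting: a law for which all heights needed have entropy at most `h` -/
structure Ctx {Ω : Type} [Fintype Ω] {W : Type} [AddCommGroup W] [Module ℚ W]
    (p : Ω → ℝ) (X D : Ω → W) (h δ : ℝ) (G : Finset (ℚ × ℚ)) (m : ℚ × ℚ → ℝ)
    (Q F : Finset ℚ) : Prop where
  law : IsLaw p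
  det : Det p D X
  G0 : ∀ v ∈ G, v.1 ≠ 0
  m0 : ∀ v ∈ G, 0 ≤ m v
  m1 : ∑ v ∈ G, m v = 1
  q1 : (-1 : ℚ) ∈ Q
  avg : ∀ g : ℚ → ℚ → ℝ, (∀ x y, 0 ≤ g x y) → (∀ x y, g x y ≤ 2 * H p D) →
    (∀ q ∈ Q, |∑ v ∈ G, m v * g (v.1 * q) v.2 - ∑ v ∈ G, m v * g v.1 v.2| ≤ δ) ∧
      |∑ v ∈ G, m v * g v.1 (v.2 + v.1 * 1) - ∑ v ∈ G, m v * g v.1 v.2| ≤ δ
  hF : ∀ v ∈ G, ∀ t ∈ F, H p (pos X D (v.2 + v.1 * t)) ≤ h
  hm : ∀ v ∈ G, H p (pos X D (v.2 + -v.1)) ≤ h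

section

variable {Ω : Type} [Fintype Ω] {W : Type} [AddCommGroup W] [Module ℚ W]
  {p : Ω → ℝ} {X D : Ω → W} {h δ : ℝ} {G : Finset (ℚ × ℚ)} {m : ℚ × ℚ → ℝ} {Q F : Finset ℚ}
  {b : ℝ} {T : Finset ℚ} {w : ℚ → ℝ}

/-- the average of `phi` in the ratio `ρ` -/
noncomputable def Bp (p : Ω → ℝ) (X D : Ω → W) (G : Finset (ℚ × ℚ)) (m : ℚ × ℚ → ℝ) (ρ : ℚ) : ℝ :=
  bar G m (fun v => phi p (pos X D v.2) D v.1 (v.1 * ρ))

/-- the average of the pair entropy -/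
noncomputable def PP (p : Ω → ℝ) (X D : Ω → W) (G : Finset (ℚ × ℚ)) (m : ℚ × ℚ → ℝ) : ℝ :=
  bar G m (fun v => pp p (pos X D v.2) D (-v.1) (-v.1))

/-- the average of `phi` -/
noncomputable def Pb (p : Ω → ℝ) (X D : Ω → W) (G : Finset (ℚ × ℚ)) (m : ℚ × ℚ → ℝ)
    (x y : ℚ) : ℝ :=
  bar G m (fun v => phi p (pos X D v.2) (fun z => v.1 • D z) x y)

theorem Ctx.phi_avg (c : Ctx p X D h δ G m Q F) {a : ℚ} (ha : a ∈ Q) (ρ : ℚ) :
    |Pb p X D G m a (a * ρ) - Bp p X D G m ρ| ≤ δ := by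
  have h1 := (c.avg (fun x y => phi p (pos X D y) D x (x * ρ))
    (fun x y => phi_nonneg c.law _ _) (fun x y => phi_le c.law (det_pos c.det y) _ _)).1 a ha
  have h2 : Pb p X D G m a (a * ρ) =
      ∑ v ∈ G, m v * phi p (pos X D v.2) D (v.1 * a) (v.1 * a * ρ) := by
    unfold Pb bar
    refine Finset.sum_congr rfl fun v _ => ?_
    dsimp only
    rw [phi_smul, mul_assoc v.1 a ρ]
  rw [h2]
  exact h1

theorem Ctx.phi_ge (c : Ctx p X D h δ G m Q F) {a : ℚ} (ha : a ∈ Q) {y ρ : ℚ}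
    (hy : y = a * ρ) : Bp p X D G m ρ - δ ≤ Pb p X D G m a y := by
  rw [hy]
  have := (abs_le.mp (c.phi_avg ha ρ)).1
  linarith

theorem Ctx.P1 (c : Ctx p X D h δ G m Q F) :
    |bar G m (fun v => pp p (pos X D v.2) (fun z => v.1 • D z) 1 1) - PP p X D G m| ≤ δ := by
  have h1 := (c.avg (fun x y => pp p (pos X D y) D (-x) (-x))
    (fun x y => pp_nonneg c.law _ _) (fun x y => pp_le c.law (det_pos c.det y) _ _)).1 (-1) c.q1
  have h2 : bar G m (fun v => pp p (pos X D v.2) (fun z => v.1 • D z) 1 1) =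
      ∑ v ∈ G, m v * pp p (pos X D v.2) D (-(v.1 * -1)) (-(v.1 * -1)) := by
    unfold bar
    refine Finset.sum_congr rfl fun v _ => ?_
    dsimp only
    rw [pp_smul, mul_neg, mul_one, neg_neg]
  rw [h2]
  exact h1

theorem Ctx.Pm (_ : Ctx p X D h δ G m Q F) :
    bar G m (fun v => pp p (pos X D v.2) (fun z => v.1 • D z) (-1) (-1)) = PP p X D G m := by
  unfold PP
  congr 1
  funext v
  rw [pp_smul, mul_neg, mul_one]

theorem Ctx.Ps (c : Ctx p X D h δ G m Q F) :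
    |bar G m (fun v => pp p (pos X D (v.2 + v.1 * 1)) (fun z => v.1 • D z) (-1) (-1)) -
      PP p X D G m| ≤ δ := by
  have h1 := (c.avg (fun x y => pp p (pos X D y) D (-x) (-x))
    (fun x y => pp_nonneg c.law _ _) (fun x y => pp_le c.law (det_pos c.det y) _ _)).2
  have h2 : bar G m (fun v => pp p (pos X D (v.2 + v.1 * 1)) (fun z => v.1 • D z) (-1) (-1)) =
      ∑ v ∈ G, m v * pp p (pos X D (v.2 + v.1 * 1)) D (-v.1) (-v.1) := by
    unfold bar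
    refine Finset.sum_congr rfl fun v _ => ?_
    dsimp only
    rw [pp_smul, mul_neg, mul_one]
  rw [h2]
  exact h1

theorem Ctx.P_le (c : Ctx p X D h δ G m Q F) : PP p X D G m ≤ 2 * h := by
  unfold PP
  calc bar G m (fun v => pp p (pos X D v.2) D (-v.1) (-v.1)) ≤ bar G m (fun _ => 2 * h) := by
        refine bar_mono c.m0 fun v hv => ?_
        have h1 := pp_le_pos (X := pos X D v.2) (D := D) c.law (-v.1)
        have h2 : pos (pos X D v.2) D (-v.1) = pos X D (v.2 + -v.1) := by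
          funext z
          unfold pos
          rw [add_smul, add_assoc]
        rw [h2] at h1
        have := c.hm v hv
        linarith
    _ = 2 * h := bar_const c.m1 _

theorem Ctx.δ0 (c : Ctx p X D h δ G m Q F) : 0 ≤ δ := (abs_nonneg _).trans c.Ps

/-- the Katz-Tao bound for the averages -/
noncomputable def KK (b : ℝ) (p : Ω → ℝ) (X D : Ω → W) (h : ℝ) (G : Finset (ℚ × ℚ))
    (m : ℚ × ℚ → ℝ) : ℝ :=
  (3 * H p D - 2 * h + (b - 1) * (H p D + PP p X D G m - 2 * h)) / b - h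

theorem Ctx.kt (c : Ctx p X D h δ G m Q F) (hb : 1 < b) {m' t0 tp : ℚ} {F' : Finset ℚ}
    (hK : KTP b T w m' t0 tp F') (hF' : F' ⊆ F) :
    KK b p X D h G m - δ ≤ ∑ t ∈ T, w t * Bp p X D G m (m' * (t - t0) / (t - tp)) := by
  have hv : ∀ v ∈ G, 3 * H p D - 2 * h + (b - 1) * (H p D +
      pp p (pos X D (v.2 + v.1 * 1)) (fun z => v.1 • D z) (-1) (-1) - 2 * h) ≤
      b * (h + ∑ t ∈ T, w t *
        phi p (pos X D v.2) D v.1 (v.1 * (m' * (t - t0) / (t - tp)))) := by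
    intro v hv
    have h1 := hK Ω W p (pos X D v.2) (fun z => v.1 • D z) h c.law
      (det_smul c.det (c.G0 v hv) v.2) (fun t ht => by
        rw [pos_pos]; exact c.hF v hv t (hF' ht))
    rw [H_smul (c.G0 v hv), pos_pos] at h1
    simp only [phi_smul, mul_one] at h1
    simpa only [mul_one] using h1
  have h2 := bar_mono c.m0 hv
  rw [bar_add, bar_const c.m1, bar_mul, bar_sub, bar_add, bar_const c.m1, bar_const c.m1,
    bar_mul, bar_add, bar_const c.m1, bar_sum] at h2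
  have h3 : ∑ t ∈ T, bar G m (fun v => w t *
      phi p (pos X D v.2) D v.1 (v.1 * (m' * (t - t0) / (t - tp)))) =
      ∑ t ∈ T, w t * Bp p X D G m (m' * (t - t0) / (t - tp)) := by
    refine Finset.sum_congr rfl fun t _ => ?_
    rw [bar_mul]
    rfl
  rw [h3] at h2
  have h4 := (abs_le.mp c.Ps).1
  have hδ := c.δ0
  set S := ∑ t ∈ T, w t * Bp p X D G m (m' * (t - t0) / (t - tp)) with hS
  set A := bar G m (fun v => pp p (pos X D (v.2 + v.1 * 1)) (fun z => v.1 • D z) (-1) (-1)) with hA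
  unfold KK
  have hb0 : 0 < b := by linarith
  have h5 : 3 * H p D - 2 * h + (b - 1) * (H p D + PP p X D G m - 2 * h) ≤
      b * (S + h + δ) := by
    have h6 : (b - 1) * (PP p X D G m - δ) ≤ (b - 1) * A :=
      mul_le_mul_of_nonneg_left (by linarith) (by linarith)
    nlinarith
  have h7 : (3 * H p D - 2 * h + (b - 1) * (H p D + PP p X D G m - 2 * h)) / b ≤ S + h + δ := by
    rw [div_le_iff₀ hb0]
    linarith
  linarith

/-- lower bound for the weighted sums over the outer family -/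
theorem Ctx.out (c : Ctx p X D h δ G m Q F) (hb : 1 < b) (hw0 : ∀ t ∈ T, 0 ≤ w t)
    (hw1 : ∑ t ∈ T, w t = 1) (hT : ∀ t ∈ T, 1000 < t) {s z0 z1 : ℚ} (ho : Out s z0 z1)
    {F' : Finset ℚ} (hK : KTP b T w (z1 / (s - z1)) s (s * z0 / (s - z1)) F') (hF' : F' ⊆ F)
    (hQ : ∀ τ ∈ T, s * (1 - th s z0 z1 τ) ∈ Q) :
    KK b p X D h G m - 2 * δ ≤ ∑ τ ∈ T, w τ *
      Pb p X D G m (s * (1 - th s z0 z1 τ)) (s * th s z0 z1 τ) := by
  have h1 := c.kt hb hK hF'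
  have h2 : ∑ τ ∈ T, w τ * (Bp p X D G m (z1 / (s - z1) * (τ - s) / (τ - s * z0 / (s - z1))) - δ) ≤
      ∑ τ ∈ T, w τ * Pb p X D G m (s * (1 - th s z0 z1 τ)) (s * th s z0 z1 τ) := by
    refine Finset.sum_le_sum fun τ hτ => mul_le_mul_of_nonneg_left ?_ (hw0 τ hτ)
    exact c.phi_ge (hQ τ hτ) (ho.rat τ (hT τ hτ))
  have h3 : ∑ τ ∈ T, w τ *
      (Bp p X D G m (z1 / (s - z1) * (τ - s) / (τ - s * z0 / (s - z1))) - δ) =
      ∑ τ ∈ T, w τ * Bp p X D G m (z1 / (s - z1) * (τ - s) / (τ - s * z0 / (s - z1))) - δ := by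
    have : ∑ τ ∈ T, w τ * δ = δ := by rw [← Finset.sum_mul, hw1, one_mul]
    conv_rhs => rw [← this]
    rw [← Finset.sum_sub_distrib]
    exact Finset.sum_congr rfl fun τ _ => by ring
  linarith

/-- lower bound for the weighted sums over an inner family -/
theorem Ctx.inn (c : Ctx p X D h δ G m Q F) (hb : 1 < b) (hw0 : ∀ t ∈ T, 0 ≤ w t)
    (hw1 : ∑ t ∈ T, w t = 1) (hT : ∀ t ∈ T, 1000 < t) {s t θ : ℚ} (hi : Inn s t θ)
    {F' : Finset ℚ} (hK : KTP b T w (s * θ / (t - s * θ)) t (t * s * (1 - θ) / (t - s * θ)) F')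
    (hF' : F' ⊆ F) (hQ : ∀ σ ∈ T, t * (1 - th2 s t θ σ) ∈ Q) :
    KK b p X D h G m - 2 * δ ≤ ∑ σ ∈ T, w σ *
      Pb p X D G m (t * (1 - th2 s t θ σ)) (t * th2 s t θ σ) := by
  have h1 := c.kt hb hK hF'
  have h2 : ∑ σ ∈ T, w σ * (Bp p X D G m
      (s * θ / (t - s * θ) * (σ - t) / (σ - t * s * (1 - θ) / (t - s * θ))) - δ) ≤
      ∑ σ ∈ T, w σ * Pb p X D G m (t * (1 - th2 s t θ σ)) (t * th2 s t θ σ) := by
    refine Finset.sum_le_sum fun σ hσ => mul_le_mul_of_nonneg_left ?_ (hw0 σ hσ)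
    exact c.phi_ge (hQ σ hσ) (hi.rat σ (hT σ hσ))
  have h3 : ∑ σ ∈ T, w σ * (Bp p X D G m
      (s * θ / (t - s * θ) * (σ - t) / (σ - t * s * (1 - θ) / (t - s * θ))) - δ) =
      ∑ σ ∈ T, w σ * Bp p X D G m
      (s * θ / (t - s * θ) * (σ - t) / (σ - t * s * (1 - θ) / (t - s * θ))) - δ := by
    have : ∑ τ ∈ T, w τ * δ = δ := by rw [← Finset.sum_mul, hw1, one_mul]
    conv_rhs => rw [← this]
    rw [← Finset.sum_sub_distrib]
    exact Finset.sum_congr rfl fun τ _ => by ring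
  linarith

theorem Ctx.pb_swap (c : Ctx p X D h δ G m Q F) (x y : ℚ) :
    Pb p X D G m x y = Pb p X D G m y x := by
  unfold Pb
  congr 1
  funext v
  exact phi_swap c.law x y

/-- the averaged inequality -/
theorem Ctx.fin (c : Ctx p X D h δ G m Q F) (hb : 1 < b) (hw0 : ∀ t ∈ T, 0 ≤ w t)
    (hw1 : ∑ t ∈ T, w t = 1) {r : ℚ} {F' : Finset ℚ} (hWP : WP b T w r F')
    (hF' : F' ⊆ F)
    (hQ1 : 3 / (r + 1) ∈ Q) (hQ2 : 1 / (1 + r) ∈ Q) (hQ3 : Z3 r ∈ Q) (hQ4 : W4 r ∈ Q) {k : ℝ}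
    (hk0 : k + δ ≤ Bp p X D G m r)
    (h1 : k ≤ ∑ τ ∈ T, w τ * Pb p X D G m (1 * (1 - th 1 (r * Z3 r) (Z3 r) τ))
      (1 * th 1 (r * Z3 r) (Z3 r) τ))
    (h2 : ∀ τ ∈ T, k ≤ ∑ σ ∈ T, w σ * Pb p X D G m
      (-1 * (1 - th2 1 (-1) (th 1 (r * Z3 r) (Z3 r) τ) σ))
      (-1 * th2 1 (-1) (th 1 (r * Z3 r) (Z3 r) τ) σ))
    (h3 : k ≤ ∑ τ ∈ T, w τ * Pb p X D G m (-1 * (1 - th (-1) (r * W4 r) (W4 r) τ))
      (-1 * th (-1) (r * W4 r) (W4 r) τ))
    (h4 : ∀ τ ∈ T, k ≤ ∑ σ ∈ T, w σ * Pb p X D G m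
      (1 * (1 - th2 (-1) 1 (th (-1) (r * W4 r) (W4 r) τ) σ))
      (1 * th2 (-1) 1 (th (-1) (r * W4 r) (W4 r) τ) σ)) :
    ∃ z z' P1 : ℝ, |P1 - PP p X D G m| ≤ δ ∧
      (b - 1) * z ≤ b * (2 * h + (b * (4 * h - k) - (4 * H p D - 2 * h - PP p X D G m)) / (b - 1)
        - k) - (6 * H p D - 3 * h - P1 - PP p X D G m) ∧
      (b - 1) * z' ≤ b * (2 * h + (b * (4 * h - k) - (4 * H p D - 2 * h - P1)) / (b - 1)
        - k) - (6 * H p D - 3 * h - P1 - PP p X D G m) ∧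
      (4 * H p D - 2 * h - P1) + 2 * (6 * H p D - 3 * h - P1 - PP p X D G m) + 4 * k ≤
        10 * h + z + z' := by
  have hv : ∀ v : ℚ × ℚ, ∃ z z' : ℝ, v ∈ G →
      (b - 1) * z ≤ Zub b T w (phi p (pos X D v.2) (fun z => v.1 • D z)) 1 (-1)
        (r * Z3 r) (Z3 r) h
        (4 * H p D - 2 * h - pp p (pos X D v.2) (fun z => v.1 • D z) (-1) (-1))
        (6 * H p D - 3 * h - pp p (pos X D v.2) (fun z => v.1 • D z) 1 1 -
          pp p (pos X D v.2) (fun z => v.1 • D z) (-1) (-1)) ∧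
      (b - 1) * z' ≤ Zub b T w (phi p (pos X D v.2) (fun z => v.1 • D z)) (-1) 1
        (r * W4 r) (W4 r) h
        (4 * H p D - 2 * h - pp p (pos X D v.2) (fun z => v.1 • D z) 1 1)
        (6 * H p D - 3 * h - pp p (pos X D v.2) (fun z => v.1 • D z) 1 1 -
          pp p (pos X D v.2) (fun z => v.1 • D z) (-1) (-1)) ∧
      (4 * H p D - 2 * h - pp p (pos X D v.2) (fun z => v.1 • D z) 1 1) +
        2 * (6 * H p D - 3 * h - pp p (pos X D v.2) (fun z => v.1 • D z) 1 1 -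
          pp p (pos X D v.2) (fun z => v.1 • D z) (-1) (-1)) +
        phi p (pos X D v.2) (fun z => v.1 • D z) (3 * r / (r + 1)) (3 / (r + 1)) +
        phi p (pos X D v.2) (fun z => v.1 • D z) (1 / (1 + r)) (r / (1 + r)) +
        phi p (pos X D v.2) (fun z => v.1 • D z) (r * Z3 r) (Z3 r) +
        phi p (pos X D v.2) (fun z => v.1 • D z) (W4 r) (r * W4 r) ≤ 10 * h + z + z' := by
    intro v
    by_cases hv : v ∈ G
    · obtain ⟨z, z', h5, h6, h7⟩ := hWP Ω W p (pos X D v.2) (fun z => v.1 • D z) h c.law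
        (det_smul c.det (c.G0 v hv) v.2) (fun t ht => by
          rw [pos_pos]; exact c.hF v hv t (hF' ht))
      rw [H_smul (c.G0 v hv)] at h5 h6 h7
      exact ⟨z, z', fun _ => ⟨h5, h6, h7⟩⟩
    · exact ⟨0, 0, fun h => absurd h hv⟩
  choose z z' hz using hv
  refine ⟨bar G m z, bar G m z', bar G m (fun v => pp p (pos X D v.2) (fun z => v.1 • D z) 1 1),
    c.P1, ?_, ?_, ?_⟩
  · have h5 := bar_mono c.m0 (fun v hv => (hz v hv).1)
    rw [bar_mul, bar_Zub c.m1, bar_sub, bar_const c.m1, c.Pm, bar_sub, bar_sub, bar_const c.m1,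
      c.Pm] at h5
    exact h5.trans (Zub_le hb hw0 hw1 h1 h2 le_rfl le_rfl)
  · have h5 := bar_mono c.m0 (fun v hv => (hz v hv).2.1)
    rw [bar_mul, bar_Zub c.m1, bar_sub, bar_const c.m1, bar_sub, bar_sub, bar_const c.m1,
      c.Pm] at h5
    exact h5.trans (Zub_le hb hw0 hw1 h3 h4 le_rfl le_rfl)
  · have h5 := bar_mono c.m0 (fun v hv => (hz v hv).2.2)
    rw [bar_add, bar_add, bar_add, bar_add, bar_add, bar_sub, bar_const c.m1, bar_mul, bar_sub,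
      bar_sub, bar_const c.m1, c.Pm, bar_add, bar_add, bar_const c.m1] at h5
    have a1 := c.phi_ge hQ1 (y := 3 * r / (r + 1)) (ρ := r) (by ring)
    have a2 := c.phi_ge hQ2 (y := r / (1 + r)) (ρ := r) (by ring)
    have a3 := c.phi_ge hQ3 (y := r * Z3 r) (ρ := r) (by ring)
    have a4 := c.phi_ge hQ4 (y := r * W4 r) (ρ := r) (by ring)
    rw [c.pb_swap] at a1 a3
    unfold Pb at a1 a2 a3 a4
    linarith

end

theorem coefE {u b : ℝ} (hu : 0 < u) (hu1 : u ≤ 1) (hb0 : 0 ≤ b) (hb2 : b ≤ 2) :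
    3 * u ^ 2 + 2 * u + b + 8 * u ^ 2 + 4 * (u * b + b ^ 2) ≤ 39 := by
  have h1 : u ^ 2 ≤ 1 := pow_le_one₀ hu.le hu1
  have h2 : u * b ≤ 1 * 2 := mul_le_mul hu1 hb2 hb0 one_pos.le
  have h3 : b ^ 2 ≤ 2 ^ 2 := pow_le_pow_left₀ hb0 hb2 2
  linarith

theorem coefC {b : ℝ} (hb1 : 1 < b) (hb2 : b ≤ 2) : 2 * b ^ 2 - 6 * b + 3 ≤ 0 := by
  have h1 : 0 ≤ (b - 1) * (2 - b) := mul_nonneg (by linarith) (by linarith)
  linarith

/-- the final computation -/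
theorem algebra {b c h P P1 δ K k z z' : ℝ} (hb1 : 1 < b) (hb2 : b ≤ 2)
    (hP : P ≤ 2 * h) (hδ : 0 ≤ δ) (hP1 : |P1 - P| ≤ δ)
    (hK : K = (3 * (c * h) - 2 * h + (b - 1) * (c * h + P - 2 * h)) / b - h)
    (hk : k = K - 2 * δ)
    (h1 : (b - 1) * z ≤ b * (2 * h + (b * (4 * h - k) - (4 * (c * h) - 2 * h - P)) / (b - 1)
        - k) - (6 * (c * h) - 3 * h - P1 - P))
    (h2 : (b - 1) * z' ≤ b * (2 * h + (b * (4 * h - k) - (4 * (c * h) - 2 * h - P1)) / (b - 1)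
        - k) - (6 * (c * h) - 3 * h - P1 - P))
    (h3 : (4 * (c * h) - 2 * h - P1) + 2 * (6 * (c * h) - 3 * h - P1 - P) + 4 * k ≤
        10 * h + z + z') :
    -(h * ((b - 1) ^ 2 * (10 - (4 * c - 4) - 4 * (((b + 2) * c - 2 - b) / b) - 2 * (6 * c - 7)) +
    2 * ((b - 1) * b * (2 - ((b + 2) * c - 2 - b) / b) + b ^ 2 * (4 - ((b + 2) * c - 2 - b) / b)
      - b * (4 * c - 4) - (b - 1) * (6 * c - 7)))) ≤ 39 * δ := by
  obtain ⟨p1, p2⟩ := abs_le.mp hP1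
  have hu : 0 < b - 1 := by linarith
  have hb0 : 0 < b := by linarith
  set u := b - 1 with hu'
  -- multiply by `u^2`
  have g1 : u ^ 2 * z ≤ u * b * (2 * h - k) + b * (b * (4 * h - k) - (4 * (c * h) - 2 * h - P)) -
      u * (6 * (c * h) - 3 * h - P1 - P) := by
    have := mul_le_mul_of_nonneg_left h1 hu.le
    have e : u * (b * (2 * h + (b * (4 * h - k) - (4 * (c * h) - 2 * h - P)) / u
        - k) - (6 * (c * h) - 3 * h - P1 - P)) = u * b * (2 * h - k) +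
        b * (b * (4 * h - k) - (4 * (c * h) - 2 * h - P)) -
      u * (6 * (c * h) - 3 * h - P1 - P) := by
      field_simp
      ring
    rw [e] at this
    calc u ^ 2 * z = u * (u * z) := by ring
      _ ≤ _ := this
  have g2 : u ^ 2 * z' ≤ u * b * (2 * h - k) + b * (b * (4 * h - k) - (4 * (c * h) - 2 * h - P1)) -
      u * (6 * (c * h) - 3 * h - P1 - P) := by
    have := mul_le_mul_of_nonneg_left h2 hu.le
    have e : u * (b * (2 * h + (b * (4 * h - k) - (4 * (c * h) - 2 * h - P1)) / u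
        - k) - (6 * (c * h) - 3 * h - P1 - P)) = u * b * (2 * h - k) +
        b * (b * (4 * h - k) - (4 * (c * h) - 2 * h - P1)) -
      u * (6 * (c * h) - 3 * h - P1 - P) := by
      field_simp
      ring
    rw [e] at this
    calc u ^ 2 * z' = u * (u * z') := by ring
      _ ≤ _ := this
  have g3 := mul_le_mul_of_nonneg_left h3 (sq_nonneg u)
  -- eliminate `P1`
  set y := P1 - P with hy
  have hP1' : P1 = P + y := by rw [hy]; ring
  rw [hP1'] at g1 g2 g3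
  have g4 : u ^ 2 * (3 * y) ≤ u ^ 2 * (3 * δ) :=
    mul_le_mul_of_nonneg_left (by linarith) (sq_nonneg u)
  have g5 : u * (2 * y) ≤ u * (2 * δ) := mul_le_mul_of_nonneg_left (by linarith) hu.le
  have g6 : b * y ≤ b * δ := mul_le_mul_of_nonneg_left (by linarith) hb0.le
  have g7 : u ^ 2 * (16 * (c * h) - 18 * h - 5 * P + 4 * k) ≤
      2 * (u * b * (2 * h - k) + b * (b * (4 * h - k) - (4 * (c * h) - 2 * h - P)) -
        u * (6 * (c * h) - 3 * h - 2 * P)) + (3 * u ^ 2 + 2 * u + b) * δ := by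
    linear_combination g1 + g2 + g3 + g4 + g5 + g6
  -- eliminate `k`
  set x := 2 * h - P with hx
  have hx0 : 0 ≤ x := by linarith
  have hP' : P = 2 * h - x := by rw [hx]; ring
  have hcoef : u ^ 2 * (4 * (u / b) - 5) + 2 * (2 * b ^ 2 - 6 * b + 3) ≤ 0 := by
    have c1 : u / b ≤ 1 := by
      rw [div_le_one hb0]; linarith
    have c2 : u ^ 2 * (4 * (u / b) - 5) ≤ 0 :=
      mul_nonpos_of_nonneg_of_nonpos (sq_nonneg u) (by linarith)
    have c3 : 2 * b ^ 2 - 6 * b + 3 ≤ 0 := coefC hb1 hb2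
    linarith
  have hxc := mul_nonneg hx0 (neg_nonneg.mpr hcoef)
  have key : 2 * (u * b * (2 * h - k) + b * (b * (4 * h - k) - (4 * (c * h) - 2 * h - P)) -
        u * (6 * (c * h) - 3 * h - 2 * P)) + (3 * u ^ 2 + 2 * u + b) * δ -
      u ^ 2 * (16 * (c * h) - 18 * h - 5 * P + 4 * k) =
      h * (u ^ 2 * (10 - (4 * c - 4) - 4 * (((b + 2) * c - 2 - b) / b) - 2 * (6 * c - 7)) +
    2 * (u * b * (2 - ((b + 2) * c - 2 - b) / b) + b ^ 2 * (4 - ((b + 2) * c - 2 - b) / b)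
      - b * (4 * c - 4) - u * (6 * c - 7))) +
      x * (u ^ 2 * (4 * (u / b) - 5) + 2 * (2 * b ^ 2 - 6 * b + 3)) +
      (3 * u ^ 2 + 2 * u + b + 8 * u ^ 2 + 4 * (u * b + b ^ 2)) * δ := by
    rw [hk, hK, hP', hu']
    field_simp
    ring
  have hE : (3 * u ^ 2 + 2 * u + b + 8 * u ^ 2 + 4 * (u * b + b ^ 2)) * δ ≤ 39 * δ := by
    exact mul_le_mul_of_nonneg_right (coefE hu (by linarith) (by linarith) hb2) hδ
  linarith

end Pool.Agent.W410.AK
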